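import Mathlib

set_option autoImplicit false

open Polynomial Metric Set Filter Topology Bornology

namespace Pool.Agent.Results.MP_3dabd4_an.PrescribedZeros

/-- `P + P'` -/
noncomputable def dd (P : ℂ[X]) : ℂ[X] := P + derivative P

/-- `P + 2 P' + P''` -/
noncomputable def ss (P : ℂ[X]) : ℂ[X] := P + 2 * derivative P + derivative (derivative P)

/-- Newton map of `P e^z` -/
noncomputable def nn (P : ℂ[X]) (z : ℂ) : ℂ := z - P.eval z / (dd P).eval z

/-- its derivative -/
noncomputable def nn' (P : ℂ[X]) (z : ℂ) : ℂ := P.eval z * (ss P).eval z / (dd P).eval z ^ 2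

lemma nn_hasStrictDerivAt (P : ℂ[X]) {z : ℂ} (hz : (dd P).eval z ≠ 0) :
    HasStrictDerivAt (nn P) (nn' P z) z := by
  have h1 := (P.hasStrictDerivAt z).div ((dd P).hasStrictDerivAt z) hz
  have h2 := (hasStrictDerivAt_id z).sub h1
  refine HasStrictDerivAt.congr_deriv h2 ?_
  unfold nn' ss
  unfold dd at hz ⊢
  simp only [eval_add, eval_mul, derivative_add, eval_ofNat] at hz ⊢
  field_simp
  ring

lemma nn_of_root (P : ℂ[X]) {z : ℂ} (hz : P.eval z = 0) : nn P z = z := by
  simp [nn, hz]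

lemma degree_der_lt (P : ℂ[X]) (hP : 0 < P.natDegree) : (derivative P).degree < P.degree :=
  degree_derivative_lt (fun h => by simp [h] at hP)

lemma degree_dd (P : ℂ[X]) (hP : 0 < P.natDegree) : (dd P).degree = P.degree := by
  unfold dd
  exact degree_add_eq_left_of_degree_lt (degree_der_lt P hP)

lemma dd_ne_zero (P : ℂ[X]) (hP : 0 < P.natDegree) : dd P ≠ 0 := by
  intro h
  have := degree_dd P hP
  rw [h, degree_zero] at this
  have h2 : P = 0 := degree_eq_bot.mp this.symm
  simp [h2] at hP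

/-- Asymptotics at infinity. -/
lemma asymp (P : ℂ[X]) (hP : 0 < P.natDegree) : ∃ M : ℝ, 0 < M ∧ ∀ z : ℂ, M ≤ ‖z‖ →
    P.eval z ≠ 0 ∧ (dd P).eval z ≠ 0 ∧ ‖nn P z - (z - 1)‖ ≤ 1 / 4 ∧
    ‖z‖ * ‖nn' P z - 1‖ ≤ 1 / 4 := by
  have hP0 : P ≠ 0 := fun h => by simp [h] at hP
  have e1 : ∀ᶠ z in cobounded ℂ, ¬ P.IsRoot z :=
    (eventually_cofinite_not_isRoot hP0).filter_mono (Bornology.le_cofinite ℂ)
  have e2 : ∀ᶠ z in cobounded ℂ, ¬ (dd P).IsRoot z :=
    (eventually_cofinite_not_isRoot (dd_ne_zero P hP)).filter_mono (Bornology.le_cofinite ℂ)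
  have l1 : (derivative P).eval =o[cobounded ℂ] (dd P).eval :=
    isLittleO_cobounded_of_degree_lt (by rw [degree_dd P hP]; exact degree_der_lt P hP)
  have l2 : (X * (P * derivative (derivative P) - derivative P ^ 2)).eval
      =o[cobounded ℂ] ((dd P) ^ 2).eval := by
    apply isLittleO_cobounded_of_degree_lt
    have hn : (dd P ^ 2).degree = ((2 * P.natDegree : ℕ) : WithBot ℕ) := by
      rw [degree_pow, degree_dd P hP, degree_eq_natDegree hP0]
      simp
    rw [hn]
    have hd1 := natDegree_derivative_le P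
    have hd2 := natDegree_derivative_le (derivative P)
    by_cases hone : P.natDegree = 1
    · have hdd : derivative (derivative P) = 0 := by
        have : (derivative P).natDegree = 0 := by omega
        exact derivative_of_natDegree_zero this
      rw [hdd, mul_zero, zero_sub]
      apply lt_of_le_of_lt degree_le_natDegree
      have h1 : (X * -derivative P ^ 2).natDegree ≤ 1 + 2 * (derivative P).natDegree := by
        refine natDegree_mul_le.trans ?_
        rw [natDegree_X, natDegree_neg]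
        gcongr
        exact natDegree_pow_le
      have h2 : (X * -derivative P ^ 2).natDegree < 2 * P.natDegree := by omega
      exact_mod_cast h2
    · apply lt_of_le_of_lt degree_le_natDegree
      have h1 : (X * (P * derivative (derivative P) - derivative P ^ 2)).natDegree ≤
          1 + (2 * P.natDegree - 2) := by
        refine natDegree_mul_le.trans ?_
        rw [natDegree_X]
        gcongr
        refine (natDegree_sub_le _ _).trans (max_le ?_ ?_)
        · refine natDegree_mul_le.trans ?_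
          omega
        · refine natDegree_pow_le.trans ?_
          omega
      have h2 : (X * (P * derivative (derivative P) - derivative P ^ 2)).natDegree <
          2 * P.natDegree := by omega
      exact_mod_cast h2
  have c1 := l1.def (by norm_num : (0 : ℝ) < 1 / 4)
  have c2 := l2.def (by norm_num : (0 : ℝ) < 1 / 4)
  have := ((e1.and e2).and (c1.and c2))
  rw [← comap_norm_atTop, eventually_comap] at this
  obtain ⟨M, hM⟩ := this.exists_forall_of_atTop
  refine ⟨max M 1, by positivity, fun z hz => ?_⟩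
  obtain ⟨⟨a1, a2⟩, a3, a4⟩ := hM ‖z‖ ((le_max_left _ _).trans hz) z rfl
  have b1 : P.eval z ≠ 0 := a1
  have b2 : (dd P).eval z ≠ 0 := a2
  have b3 : 0 < ‖(dd P).eval z‖ := norm_pos_iff.mpr b2
  refine ⟨b1, b2, ?_, ?_⟩
  · have : nn P z - (z - 1) = (derivative P).eval z / (dd P).eval z := by
      unfold nn
      field_simp
      simp only [dd, eval_add]
      ring
    rw [this, norm_div, div_le_iff₀ b3]
    exact a3
  · have : nn' P z - 1 =
        (P.eval z * (derivative (derivative P)).eval z - (derivative P).eval z ^ 2) /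
          (dd P).eval z ^ 2 := by
      unfold nn'
      field_simp
      simp only [dd, ss, eval_add, eval_mul, eval_ofNat]
      ring
    rw [this, ← norm_mul, mul_div_assoc', norm_div, div_le_iff₀ (by rw [norm_pow]; positivity)]
    simpa only [eval_mul, eval_X, eval_sub, eval_pow] using a4

/-- A root of `P` is superattracting. -/
lemma attracting (P : ℂ[X]) {b : ℂ} (hb : P.eval b = 0) (hD : (dd P).eval b ≠ 0) :
    ∃ r : ℝ, 0 < r ∧ ∀ z ∈ ball b r, nn P z ∈ ball b r := by
  have h := (nn_hasStrictDerivAt P hD).hasDerivAt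
  have h0 : nn' P b = 0 := by simp [nn', hb]
  rw [h0, hasDerivAt_iff_isLittleO] at h
  have h1 := h.def (by norm_num : (0 : ℝ) < 1 / 2)
  rw [Metric.eventually_nhds_iff] at h1
  obtain ⟨r, hr, hr'⟩ := h1
  refine ⟨r, hr, fun z hz => ?_⟩
  have h2 := hr' hz
  rw [nn_of_root P hb, smul_zero, sub_zero] at h2
  rw [mem_ball, dist_eq_norm] at hz ⊢
  have := norm_nonneg (z - b)
  linarith

/-- The Newton map as a map on the complement of its finite poles. -/
noncomputable def pmap (P : ℂ[X]) (z : {z : ℂ // (dd P).eval z ≠ 0}) : ℂ := nn P z.1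

lemma pmap_continuous (P : ℂ[X]) : Continuous (pmap P) := by
  unfold pmap nn
  refine continuous_subtype_val.sub ?_
  refine Continuous.div₀ ?_ ?_ (fun z => z.2)
  · exact P.continuous.comp continuous_subtype_val
  · exact (dd P).continuous.comp continuous_subtype_val

lemma pmap_isClosedMap (P : ℂ[X]) (hP : 0 < P.natDegree)
    (hPD : ∀ z, (dd P).eval z = 0 → P.eval z ≠ 0) : IsClosedMap (pmap P) := by
  apply IsProperMap.isClosedMap
  rw [isProperMap_iff_isCompact_preimage]
  refine ⟨pmap_continuous P, fun {K} hK => ?_⟩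
  obtain ⟨R, hR⟩ := hK.isBounded.subset_closedBall 0
  obtain ⟨M, hM0, hM⟩ := asymp P hP
  have hcomp : IsCompact (pmap P ⁻¹' closedBall 0 R) := by
    have hind : Topology.IsInducing (Subtype.val : {z : ℂ // (dd P).eval z ≠ 0} → ℂ) := ⟨rfl⟩
    rw [hind.isCompact_iff]
    have himg : Subtype.val '' (pmap P ⁻¹' closedBall 0 R) =
        {z : ℂ | ‖z * (dd P).eval z - P.eval z‖ ≤ R * ‖(dd P).eval z‖} := by
      ext z
      constructor
      · rintro ⟨⟨z, hz⟩, h, rfl⟩
        simp only [mem_preimage, pmap, nn, mem_closedBall, dist_zero_right] at h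
        show ‖z * (dd P).eval z - P.eval z‖ ≤ R * ‖(dd P).eval z‖
        have h3 : z * (dd P).eval z - P.eval z = (z - P.eval z / (dd P).eval z) *
          (dd P).eval z := by field_simp
        rw [h3, norm_mul]
        gcongr
      · intro h
        have h : ‖z * (dd P).eval z - P.eval z‖ ≤ R * ‖(dd P).eval z‖ := h
        have hz : (dd P).eval z ≠ 0 := by
          intro h0
          rw [h0] at h
          simp at h
          exact hPD z h0 h
        refine ⟨⟨z, hz⟩, ?_, rfl⟩
        simp only [mem_preimage, pmap, nn, mem_closedBall, dist_zero_right]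
        have h3 : z - P.eval z / (dd P).eval z = (z * (dd P).eval z - P.eval z) /
          (dd P).eval z := by field_simp
        rw [h3, norm_div, div_le_iff₀ (norm_pos_iff.mpr hz)]
        exact h
    rw [himg]
    apply Metric.isCompact_of_isClosed_isBounded
    · exact isClosed_le (by fun_prop) (by fun_prop)
    · rw [isBounded_iff_forall_norm_le]
      refine ⟨max M (R + 2), fun z h => ?_⟩
      by_contra hz
      push Not at hz
      obtain ⟨h1, h2, h3, -⟩ := hM z ((le_max_left _ _).trans hz.le)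
      have h4 : ‖nn P z‖ ≤ R := by
        have h : ‖z * (dd P).eval z - P.eval z‖ ≤ R * ‖(dd P).eval z‖ := h
        have h3 : nn P z = (z * (dd P).eval z - P.eval z) /
          (dd P).eval z := by unfold nn; field_simp
        rw [h3, norm_div, div_le_iff₀ (norm_pos_iff.mpr h2)]
        exact h
      have h5 : ‖z‖ ≤ ‖nn P z‖ + ‖nn P z - (z - 1)‖ + 1 := by
        calc ‖z‖ = ‖nn P z - (nn P z - (z - 1)) + 1‖ := by ring_nf
          _ ≤ ‖nn P z - (nn P z - (z - 1))‖ + ‖(1 : ℂ)‖ := norm_add_le _ _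
          _ ≤ ‖nn P z‖ + ‖nn P z - (z - 1)‖ + ‖(1 : ℂ)‖ := by gcongr; exact norm_sub_le _ _
          _ = _ := by simp
      have := (le_max_right M (R + 2)).trans hz.le
      linarith [lt_of_le_of_lt (le_max_right M (R + 2)) hz]
  exact hcomp.of_isClosed_subset (hK.isClosed.preimage (pmap_continuous P))
    (preimage_mono hR)

lemma pmap_cov (P : ℂ[X]) (hP : 0 < P.natDegree)
    (hPD : ∀ z, (dd P).eval z = 0 → P.eval z ≠ 0)
    (hZ : ∀ z, (ss P).eval z = 0 → P.eval z = 0 ∨ (dd P).eval z = 0) :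
    IsCoveringMapOn (pmap P) {w | P.eval w ≠ 0} := by
  apply (pmap_isClosedMap P hP hPD).isCoveringMapOn_of_isLocalHomeomorphOn
  · intro w _
    have hG : (X - C w) * dd P - P ≠ 0 := by
      intro h
      have hdeg : ((X - C w) * dd P).degree = P.degree := by
        rw [sub_eq_zero.mp h]
      rw [degree_mul, degree_X_sub_C, degree_dd P hP,
        degree_eq_natDegree (fun h => by simp [h] at hP)] at hdeg
      have : 1 + P.natDegree = P.natDegree := by exact_mod_cast hdeg
      omega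
    have hfin : {z : ℂ | ((X - C w) * dd P - P).IsRoot z}.Finite := finite_setOfPred_isRoot hG
    apply Set.Finite.of_finite_image (f := Subtype.val) _ Subtype.val_injective.injOn
    apply hfin.subset
    rintro _ ⟨⟨z, hz⟩, h, rfl⟩
    have h : z - P.eval z / (dd P).eval z = w := h
    show eval z ((X - C w) * dd P - P) = 0
    simp only [eval_sub, eval_mul, eval_X, eval_C, ← h]
    field_simp
    ring
  · have hN : IsLocalHomeomorphOn (nn P) {z | (dd P).eval z ≠ 0 ∧ P.eval z ≠ 0} := by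
      intro z hz
      have hne : nn' P z ≠ 0 := by
        unfold nn'
        have : (ss P).eval z ≠ 0 := fun h => by
          rcases hZ z h with h | h
          · exact hz.2 h
          · exact hz.1 h
        exact div_ne_zero (mul_ne_zero hz.2 this) (pow_ne_zero _ hz.1)
      exact ⟨_, ((nn_hasStrictDerivAt P hz.1).hasStrictFDerivAt_equiv
        hne).mem_toOpenPartialHomeomorph_source, by simp⟩
    have hval : IsLocalHomeomorphOn (Subtype.val : {z : ℂ // (dd P).eval z ≠ 0} → ℂ)
        (pmap P ⁻¹' {w | P.eval w ≠ 0}) := by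
      have hopen : IsOpen {z : ℂ | (dd P).eval z ≠ 0} :=
        isOpen_ne_fun (dd P).continuous continuous_const
      exact (hopen.isOpenEmbedding_subtypeVal.isLocalHomeomorph).isLocalHomeomorphOn
    refine hN.comp hval ?_
    rintro ⟨z, hz⟩ h
    refine ⟨hz, fun h0 => ?_⟩
    have h : P.eval (nn P z) ≠ 0 := h
    rw [nn_of_root P h0] at h
    exact h h0

lemma lift_step (P : ℂ[X]) (hP : 0 < P.natDegree)
    (hPD : ∀ z, (dd P).eval z = 0 → P.eval z ≠ 0)
    (hZ : ∀ z, (ss P).eval z = 0 → P.eval z = 0 ∨ (dd P).eval z = 0)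
    {w0 : ℂ} {R : ℝ} (hR : 0 < R) (G G' : ℂ → ℂ)
    (hG : ∀ w ∈ ball w0 R, HasDerivAt G (G' w) w)
    (hGV : ∀ w ∈ ball w0 R, P.eval (G w) ≠ 0)
    {z0 : ℂ} (hz0 : (dd P).eval z0 ≠ 0) (hN : nn P z0 = G w0) :
    ∃ H : ℂ → ℂ, H w0 = z0 ∧ ∀ w ∈ ball w0 R, (dd P).eval (H w) ≠ 0 ∧ P.eval (H w) ≠ 0 ∧
      nn P (H w) = G w ∧ HasDerivAt H (G' w / nn' P (H w)) w := by
  have hcov := pmap_cov P hP hPD hZ
  have hw0 : w0 ∈ ball w0 R := mem_ball_self hR
  have hne : (ball w0 R).Nonempty := ⟨w0, hw0⟩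
  have : ContractibleSpace (ball w0 R) := (convex_ball w0 R).contractibleSpace hne
  have : LocallyPathConnectedSpace (ball w0 R) := isOpen_ball.locallyPathConnectedSpace
  have hGc : ContinuousOn G (ball w0 R) := fun w hw => (hG w hw).continuousAt.continuousWithinAt
  let f : C(ball w0 R, ℂ) := ⟨fun w => G w.1, hGc.comp_continuous continuous_subtype_val
    fun w => w.2⟩
  obtain ⟨F, ⟨hF1, hF2⟩, -⟩ := hcov.existsUnique_continuousMap_lifts f (a₀ := ⟨w0, hw0⟩)
    (e₀ := ⟨z0, hz0⟩) hN (fun a => hGV a.1 a.2)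
  classical
  let H : ℂ → ℂ := fun w => if h : w ∈ ball w0 R then (F ⟨w, h⟩).1 else 0
  have hH : ∀ w (h : w ∈ ball w0 R), H w = (F ⟨w, h⟩).1 := fun w h => dif_pos h
  have hHc : ContinuousOn H (ball w0 R) := by
    rw [continuousOn_iff_continuous_domRestrict]
    have : (ball w0 R).domRestrict H = fun w => (F w).1 := by
      ext w
      exact hH w.1 w.2
    rw [this]
    exact continuous_subtype_val.comp F.continuous
  have hHN : ∀ w ∈ ball w0 R, nn P (H w) = G w := by
    intro w hw
    have := congrFun hF2 ⟨w, hw⟩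
    rw [hH w hw]
    exact this
  have hHV : ∀ w ∈ ball w0 R, P.eval (H w) ≠ 0 := by
    intro w hw h0
    have h1 := hHN w hw
    rw [nn_of_root P h0] at h1
    rw [h1] at h0
    exact hGV w hw h0
  have hHD : ∀ w ∈ ball w0 R, (dd P).eval (H w) ≠ 0 := by
    intro w hw
    rw [hH w hw]
    exact (F ⟨w, hw⟩).2
  refine ⟨H, ?_, fun w hw => ⟨hHD w hw, hHV w hw, hHN w hw, ?_⟩⟩
  · rw [hH w0 hw0, hF1]
  · have hne : nn' P (H w) ≠ 0 := by
      unfold nn'
      have : (ss P).eval (H w) ≠ 0 := fun h => by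
        rcases hZ _ h with h | h
        · exact hHV w hw h
        · exact hHD w hw h
      exact div_ne_zero (mul_ne_zero (hHV w hw) this) (pow_ne_zero _ (hHD w hw))
    refine HasDerivAt.of_comp_left (hHc.continuousAt (isOpen_ball.mem_nhds hw))
      (nn_hasStrictDerivAt P (hHD w hw)).hasDerivAt (hG w hw) hne ?_
    filter_upwards [isOpen_ball.mem_nhds hw] with y hy
    exact hHN y hy

/-- Iterated lifting: inverse branches of the iterates along an orbit. -/
lemma lift_iter (P : ℂ[X]) (hP : 0 < P.natDegree)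
    (hPD : ∀ z, (dd P).eval z = 0 → P.eval z ≠ 0)
    (hZ : ∀ z, (ss P).eval z = 0 → P.eval z = 0 ∨ (dd P).eval z = 0)
    {R : ℝ} (hR : 0 < R) (k : ℕ) : ∀ (z0 : ℂ),
    (∀ j < k, (dd P).eval ((nn P)^[j] z0) ≠ 0) →
    (∀ w ∈ ball ((nn P)^[k] z0) R, P.eval w ≠ 0) →
    ∃ H H' : ℂ → ℂ, H ((nn P)^[k] z0) = z0 ∧
      H' ((nn P)^[k] z0) = (∏ j ∈ Finset.range k, nn' P ((nn P)^[j] z0))⁻¹ ∧
      ∀ w ∈ ball ((nn P)^[k] z0) R, P.eval (H w) ≠ 0 ∧ (nn P)^[k] (H w) = w ∧
        HasDerivAt H (H' w) w := by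
  induction k with
  | zero =>
    intro z0 _ h
    exact ⟨id, fun _ => 1, rfl, by simp, fun w hw => ⟨h w hw, rfl, hasDerivAt_id w⟩⟩
  | succ k ih =>
    intro z0 h1 h2
    obtain ⟨G, G', hG1, hG2, hG3⟩ := ih (nn P z0)
      (fun j hj => by
        rw [← Function.iterate_succ_apply]
        exact h1 (j + 1) (by omega))
      (by rw [← Function.iterate_succ_apply]; exact h2)
    rw [← Function.iterate_succ_apply] at hG1 hG2 hG3
    obtain ⟨H, hH1, hH2⟩ := lift_step P hP hPD hZ hR G G' (fun w hw => (hG3 w hw).2.2)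
      (fun w hw => (hG3 w hw).1) (z0 := z0) (h1 0 (Nat.succ_pos k)) hG1.symm
    refine ⟨H, fun w => G' w / nn' P (H w), hH1, ?_, fun w hw => ⟨(hH2 w hw).2.1, ?_,
      (hH2 w hw).2.2.2⟩⟩
    · show G' ((nn P)^[k.succ] z0) / nn' P (H ((nn P)^[k.succ] z0)) = _
      rw [hG2, hH1, Finset.prod_range_succ', mul_inv, Function.iterate_zero, id,
        div_eq_mul_inv]
      simp only [Function.iterate_succ_apply]
    · rw [Function.iterate_succ_apply, (hH2 w hw).2.2.1]
      exact (hG3 w hw).2.1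

lemma main_one (P : ℂ[X]) (hP : 0 < P.natDegree)
    (hPD : ∀ z, (dd P).eval z = 0 → P.eval z ≠ 0)
    (hZ : ∀ z, (ss P).eval z = 0 → P.eval z = 0 ∨ (dd P).eval z = 0) : False := by
  obtain ⟨b, hb⟩ := IsAlgClosed.exists_root P (by
    rw [degree_eq_natDegree (fun h => by simp [h] at hP)]
    exact_mod_cast hP.ne')
  have hb : P.eval b = 0 := hb
  have hDb : (dd P).eval b ≠ 0 := fun h => hPD b h hb
  obtain ⟨r, hr, hball⟩ := attracting P hb hDb
  obtain ⟨M, hM0, hM⟩ := asymp P hP
  set M1 := max M (‖b‖ + r) with hM1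
  have hM1a : M ≤ M1 := le_max_left _ _
  have hM1b : ‖b‖ + r ≤ M1 := le_max_right _ _
  have hM1p : 0 < M1 := lt_of_lt_of_le hM0 hM1a
  set z0 : ℂ := ((-(2 * M1 + 1) : ℝ) : ℂ) with hz0
  have hre : ∀ k : ℕ, ((nn P)^[k] z0).re ≤ -(2 * M1 + 1) - 3 / 4 * k := by
    intro k
    induction k with
    | zero => simp [hz0]
    | succ k ih =>
      rw [Function.iterate_succ_apply']
      set z := (nn P)^[k] z0
      have h1 : M ≤ ‖z‖ := by
        have h2 := Complex.abs_re_le_norm z
        have h3 := neg_le_abs z.re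
        have h4 : (0 : ℝ) ≤ k := Nat.cast_nonneg k
        linarith
      have h2 := (hM z h1).2.2.1
      have h3 := (Complex.abs_re_le_norm _).trans h2
      have h4 := (le_abs_self _).trans h3
      simp only [Complex.sub_re, Complex.one_re] at h4
      push_cast
      linarith
  have hnorm : ∀ k : ℕ, 2 * M1 + 1 + 3 / 4 * k ≤ ‖(nn P)^[k] z0‖ := by
    intro k
    have h2 := Complex.abs_re_le_norm ((nn P)^[k] z0)
    have h3 := neg_le_abs ((nn P)^[k] z0).re
    linarith [hre k]
  have hnormM : ∀ k : ℕ, M ≤ ‖(nn P)^[k] z0‖ := by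
    intro k
    have h4 : (0 : ℝ) ≤ k := Nat.cast_nonneg k
    linarith [hnorm k]
  -- product bound
  have hprod : ∀ k : ℕ, (∏ j ∈ Finset.range k, ‖nn' P ((nn P)^[j] z0)‖) ^ 2 ≤ k + 1 := by
    intro k
    induction k with
    | zero => simp
    | succ k ih =>
      rw [Finset.prod_range_succ, mul_pow]
      have h1 := (hM _ (hnormM k)).2.2.2
      have h2 := hnorm k
      set a := ‖(nn P)^[k] z0‖
      have hk : (0 : ℝ) ≤ k := Nat.cast_nonneg k
      have ha : 3 / 4 * ((k : ℝ) + 1) ≤ a := by linarith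
      have hapos : 0 < a := lt_of_lt_of_le (by positivity) ha
      have h3 : ‖nn' P ((nn P)^[k] z0)‖ ≤ 1 + 1 / (3 * (k + 1)) := by
        have h4 : ‖nn' P ((nn P)^[k] z0)‖ ≤ ‖nn' P ((nn P)^[k] z0) - 1‖ + 1 := by
          calc _ = ‖(nn' P ((nn P)^[k] z0) - 1) + 1‖ := by ring_nf
            _ ≤ _ := by simpa using norm_add_le (nn' P ((nn P)^[k] z0) - 1) 1
        have h5 : ‖nn' P ((nn P)^[k] z0) - 1‖ ≤ 1 / (3 * (k + 1)) := by
          rw [le_div_iff₀ (by positivity)]
          have : 0 ≤ ‖nn' P ((nn P)^[k] z0) - 1‖ := norm_nonneg _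
          nlinarith
        linarith
      have h6 : ‖nn' P ((nn P)^[k] z0)‖ ^ 2 ≤ (1 + 1 / (3 * (k + 1))) ^ 2 := by gcongr
      calc _ ≤ ((k : ℝ) + 1) * (1 + 1 / (3 * (k + 1))) ^ 2 := by gcongr
        _ ≤ _ := by
          push_cast
          have hk1 : (0 : ℝ) < k + 1 := by positivity
          have : ((k : ℝ) + 1) * (1 + 1 / (3 * (k + 1))) ^ 2 =
            (k + 1) + 2 / 3 + 1 / (9 * (k + 1)) := by field_simp; ring
          rw [this]
          have : 1 / (9 * ((k : ℝ) + 1)) ≤ 1 / 9 := by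
            apply one_div_le_one_div_of_le <;> linarith
          linarith
  have hiter : ∀ (k : ℕ) (z : ℂ), z ∈ ball b r → (nn P)^[k] z ∈ ball b r := by
    intro k
    induction k with
    | zero => intro z hz; exact hz
    | succ k ih => intro z hz; exact ih _ (hball z hz)
  -- key estimate
  have key : ∀ k : ℕ, r * (3 / 4 * k) ≤
      2 * ‖z0 - b‖ ^ 2 * ∏ j ∈ Finset.range k, ‖nn' P ((nn P)^[j] z0)‖ := by
    intro k
    have hk : (0 : ℝ) ≤ k := Nat.cast_nonneg k
    set R : ℝ := M1 + 3 / 4 * k with hRdef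
    have hR : 0 < R := by positivity
    have hfar : ∀ w ∈ ball ((nn P)^[k] z0) R, M1 + 1 ≤ ‖w‖ := by
      intro w hw
      rw [mem_ball, dist_eq_norm] at hw
      have h1 := hnorm k
      have h2 : ‖(nn P)^[k] z0‖ ≤ ‖w‖ + ‖w - (nn P)^[k] z0‖ := by
        calc _ = ‖w - (w - (nn P)^[k] z0)‖ := by ring_nf
          _ ≤ _ := norm_sub_le _ _
      linarith
    obtain ⟨H, H', hH1, hH2, hH3⟩ := lift_iter P hP hPD hZ hR k z0
      (fun j _ => (hM _ (hnormM j)).2.1)
      (fun w hw => (hM w (by linarith [hfar w hw])).1)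
    have hHb : ∀ w ∈ ball ((nn P)^[k] z0) R, r ≤ ‖H w - b‖ := by
      intro w hw
      by_contra hlt
      push Not at hlt
      have h1 := hiter k (H w) (by rw [mem_ball, dist_eq_norm]; exact hlt)
      rw [(hH3 w hw).2.1, mem_ball, dist_eq_norm] at h1
      have h2 := hfar w hw
      have h3 : ‖w‖ ≤ ‖w - b‖ + ‖b‖ := by
        calc ‖w‖ = ‖(w - b) + b‖ := by ring_nf
          _ ≤ _ := norm_add_le _ _
      linarith
    have hne : ∀ w ∈ ball ((nn P)^[k] z0) R, H w - b ≠ 0 := fun w hw h => by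
      have := hHb w hw
      rw [h, norm_zero] at this
      linarith
    have hder : ∀ w ∈ ball ((nn P)^[k] z0) R,
        HasDerivAt (fun w => (H w - b)⁻¹) (-(H' w) / (H w - b) ^ 2) w := by
      intro w hw
      exact ((hH3 w hw).2.2.sub_const b).inv (hne w hw)
    have hdiff : DifferentiableOn ℂ (fun w => (H w - b)⁻¹) (ball ((nn P)^[k] z0) R) :=
      fun w hw => (hder w hw).differentiableAt.differentiableWithinAt
    have hcl : closedBall ((nn P)^[k] z0) (R / 2) ⊆ ball ((nn P)^[k] z0) R :=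
      closedBall_subset_ball (by linarith)
    have hcauchy := Complex.norm_deriv_le_of_forall_mem_sphere_norm_le (C := 1 / r)
      (by positivity : 0 < R / 2) (hdiff.diffContOnCl_ball hcl) (by
        intro w hw
        have hw' := hcl (sphere_subset_closedBall hw)
        rw [norm_inv, one_div]
        exact inv_anti₀ hr (hHb w hw'))
    have hc : (nn P)^[k] z0 ∈ ball ((nn P)^[k] z0) R := mem_ball_self hR
    rw [(hder _ hc).deriv, hH1, hH2, norm_div, norm_neg, norm_inv, norm_pow, norm_prod] at hcauchy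
    set A := ∏ j ∈ Finset.range k, ‖nn' P ((nn P)^[j] z0)‖ with hA
    have hAnn : 0 ≤ A := Finset.prod_nonneg fun _ _ => norm_nonneg _
    have hBpos : 0 < ‖z0 - b‖ ^ 2 := by
      have := hHb _ hc
      rw [hH1] at this
      have : 0 < ‖z0 - b‖ := lt_of_lt_of_le hr this
      positivity
    have hApos : 0 < A := by
      apply Finset.prod_pos
      intro j _
      rw [norm_pos_iff]
      obtain ⟨a1, a2, -, a4⟩ := hM _ (hnormM j)
      intro h0
      rw [h0] at a4
      simp only [zero_sub, norm_neg, norm_one, mul_one] at a4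
      have := hnorm j
      have hj : (0 : ℝ) ≤ j := Nat.cast_nonneg j
      linarith
    have h5 : A⁻¹ / ‖z0 - b‖ ^ 2 ≤ 1 / r / (R / 2) := hcauchy
    rw [div_div, div_le_div_iff₀ hBpos (by positivity), one_mul] at h5
    have h6 : r * (R / 2) ≤ A * ‖z0 - b‖ ^ 2 := by
      have := mul_le_mul_of_nonneg_left h5 hApos.le
      rwa [← mul_assoc, mul_inv_cancel₀ hApos.ne', one_mul] at this
    have h7 : r * (3 / 4 * k) ≤ r * R := by
      apply mul_le_mul_of_nonneg_left _ hr.le
      rw [hRdef]; linarith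
    linarith
  -- conclusion
  set B := ‖z0 - b‖ ^ 2 with hB
  have hBnn : 0 ≤ B := by positivity
  obtain ⟨k, hk⟩ := exists_nat_gt (max 1 (8 * B ^ 2 / (r ^ 2 * (9 / 16))))
  have hk1 : (1 : ℝ) < k := (le_max_left _ _).trans_lt hk
  have hk2 : 8 * B ^ 2 / (r ^ 2 * (9 / 16)) < k := (le_max_right _ _).trans_lt hk
  rw [div_lt_iff₀ (by positivity)] at hk2
  have h1 := key k
  have h2 := hprod k
  set A := ∏ j ∈ Finset.range k, ‖nn' P ((nn P)^[j] z0)‖ with hA
  have hAnn : 0 ≤ A := Finset.prod_nonneg fun _ _ => norm_nonneg _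
  have h3 : (r * (3 / 4 * k)) ^ 2 ≤ (2 * B * A) ^ 2 := by
    have : 0 ≤ r * (3 / 4 * k) := by positivity
    gcongr
  have h4 : (2 * B * A) ^ 2 ≤ 4 * B ^ 2 * (k + 1) := by
    have : (2 * B * A) ^ 2 = 4 * B ^ 2 * A ^ 2 := by ring
    rw [this]
    gcongr
  have h5 : 4 * B ^ 2 * ((k : ℝ) + 1) ≤ 8 * B ^ 2 * k := by nlinarith [sq_nonneg B]
  have h6 : (k * (r ^ 2 * (9 / 16))) * k ≤ 8 * B ^ 2 * k := by
    calc _ = (r * (3 / 4 * k)) ^ 2 := by ring
      _ ≤ _ := h3.trans (h4.trans h5)
  have h7 : k * (r ^ 2 * (9 / 16)) ≤ 8 * B ^ 2 :=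
    le_of_mul_le_mul_right h6 (by linarith)
  linarith

/-- Let `P` be a non-constant complex polynomial with only simple zeros, `c` a complex number and
`d(P) = c P + P'`. If every zero of `d(d(P))` is a zero of `P` or of `d(P)`, then `c = 0`. -/
theorem result (P : ℂ[X]) (c : ℂ) (hP : 0 < P.natDegree)
    (hsimple : ∀ z : ℂ, P.eval z = 0 → (derivative P).eval z ≠ 0)
    (hZ : ∀ z : ℂ, (C c * (C c * P + derivative P) + derivative (C c * P + derivative P)).eval z = 0
      → P.eval z = 0 ∨ (C c * P + derivative P).eval z = 0) :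
    c = 0 := by
  by_contra hc
  set Q : ℂ[X] := P.comp (C c⁻¹ * X) with hQ
  have hlin : (C c⁻¹ * X : ℂ[X]).natDegree = 1 := natDegree_C_mul_X _ (inv_ne_zero hc)
  have hQdeg : 0 < Q.natDegree := by
    rw [hQ, natDegree_comp, hlin, mul_one]
    exact hP
  have hd1 : derivative Q = C c⁻¹ * (derivative P).comp (C c⁻¹ * X) := by
    rw [hQ, derivative_comp, derivative_C_mul_X]
  have hd2 : derivative (derivative Q) =
      C c⁻¹ * (C c⁻¹ * (derivative (derivative P)).comp (C c⁻¹ * X)) := by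
    rw [hd1, derivative_C_mul, derivative_comp, derivative_C_mul_X]
  have e0 : ∀ z, Q.eval z = P.eval (c⁻¹ * z) := fun z => by
    rw [hQ]; simp [eval_comp]
  have e1 : ∀ z, (derivative Q).eval z = c⁻¹ * (derivative P).eval (c⁻¹ * z) := fun z => by
    rw [hd1]; simp [eval_comp]
  have e2 : ∀ z, (derivative (derivative Q)).eval z =
      c⁻¹ * (c⁻¹ * (derivative (derivative P)).eval (c⁻¹ * z)) := fun z => by
    rw [hd2]; simp [eval_comp]
  have hdd : ∀ z, (dd Q).eval z = c⁻¹ * (C c * P + derivative P).eval (c⁻¹ * z) := fun z => by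
    simp only [dd, eval_add, e0, e1, eval_mul, eval_C]
    field_simp
  have hss : ∀ z, (ss Q).eval z = c⁻¹ * (c⁻¹ *
      (C c * (C c * P + derivative P) + derivative (C c * P + derivative P)).eval (c⁻¹ * z)) :=
    fun z => by
      simp only [ss, eval_add, e0, e1, e2, eval_mul, eval_C, derivative_add, derivative_mul,
        derivative_C, zero_mul, zero_add, eval_ofNat]
      field_simp
      ring
  have hci : c⁻¹ ≠ 0 := inv_ne_zero hc
  refine main_one Q hQdeg ?_ ?_
  · intro z h0 h1
    rw [e0] at h1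
    rw [hdd, mul_eq_zero] at h0
    rcases h0 with h0 | h0
    · exact hci h0
    · simp only [eval_add, eval_mul, eval_C, h1, mul_zero, zero_add] at h0
      exact hsimple _ h1 h0
  · intro z h0
    rw [hss, mul_eq_zero, mul_eq_zero] at h0
    rcases h0 with h0 | h0 | h0
    · exact absurd h0 hci
    · exact absurd h0 hci
    · rcases hZ _ h0 with h | h
      · left; rw [e0]; exact h
      · right; rw [hdd, h, mul_zero]

end Pool.Agent.Results.MP_3dabd4_an.PrescribedZeros
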